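import Pool.Agent.AESK.Turns

/-!
# Embedded paths with side trees

A path in a tree is given by the list of its vertices, each with the direction of the arc to it and the list of the other
trees hanging on it (as in `AELT.Spine`).
-/

namespace AESK

open Finset AE15 AED AELT
open scoped Classical

/-- the forest with given trees -/
def mk : List (Bool × Fd) → Fd
  | [] => .nil
  | p :: L => .node p.1 p.2 (mk L)

theorem mk_trees (L : List (Bool × Fd)) : (mk L).trees = L := by
  induction L with
  | nil => rfl
  | cons p L ih => simp [mk, Fd.trees, ih]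

theorem mk_size (L : List (Bool × Fd)) : (mk L).size = tsz L := by
  rw [Fd.size_eq, mk_trees]; rfl

theorem mk_len (L : List (Bool × Fd)) : (mk L).len = L.length := by
  rw [Fd.len_eq, mk_trees]

theorem mk_deg {b : ℕ} {L : List (Bool × Fd)} : (mk L).Deg b ↔ ∀ p ∈ L, p.2.len ≤ b ∧ p.2.Deg b := by
  rw [Fd.deg_iff, mk_trees]

/-- number of vertices of a path with its side trees -/
def psz (l : List (Bool × List (Bool × Fd))) : ℕ := (l.map (fun t => 1 + tsz t.2)).sum

theorem psz_nil : psz [] = 0 := rfl

theorem psz_cons (t : Bool × List (Bool × Fd)) (l : List (Bool × List (Bool × Fd))) : psz (t :: l) = 1 + tsz t.2 + psz l := by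
  simp [psz]

theorem psz_append (l l' : List (Bool × List (Bool × Fd))) : psz (l ++ l') = psz l + psz l' := by
  simp [psz]

/-- number of changes of direction in a word -/
def tn : List Bool → ℕ
  | [] => 0
  | [_] => 0
  | a :: b :: l => (if b = a then 0 else 1) + tn (b :: l)

theorem tn_snoc (l : List Bool) (a b : Bool) : tn (l ++ [a] ++ [b]) = tn (l ++ [a]) + if b = a then 0 else 1 := by
  induction l with
  | nil => simp [tn]
  | cons c l ih =>
    cases l with
    | nil => simp [tn]
    | cons d l =>
      simp only [List.cons_append, tn] at ih ⊢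
      omega

/-- the directions along a path -/
def wd (l : List (Bool × List (Bool × Fd))) (d : Bool) : List Bool := l.map Prod.fst ++ [d]

/-- bounded degrees along a path -/
def PDeg (b : ℕ) (l : List (Bool × List (Bool × Fd))) : Prop :=
  ∀ t ∈ l, t.2.length + 1 ≤ b ∧ ∀ p ∈ t.2, p.2.len ≤ b ∧ p.2.Deg b

theorem spine_snoc {l : List (Bool × List (Bool × Fd))} {p q : Bool × Fd} (h : Spine l p q) {r : Bool × Fd}
    {s : List (Bool × Fd)} (hr : q.2.trees.Perm (r :: s)) : Spine (l ++ [(q.1, s)]) p r := by
  induction h with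
  | nil p => exact Spine.cons p.1 p.2 s r r [] hr (Spine.nil r)
  | cons d c s' p q l hperm _ ih => exact Spine.cons d c s' p r _ hperm (ih hr)

theorem spine_append {l l' : List (Bool × List (Bool × Fd))} {p q r : Bool × Fd} (h : Spine l p q) (h' : Spine l' q r) :
    Spine (l ++ l') p r := by
  induction h with
  | nil p => exact h'
  | cons d c s' p q l hperm _ ih => exact Spine.cons d c s' p r _ hperm (ih h')

/-- paths with turns as lists -/
theorem PtT.spine {k : ℕ} {p q : Bool × Fd} {m : ℕ} (h : PtT k p q m) : ∃ l, Spine l p q ∧ tn (wd l q.1) = m := by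
  induction h with
  | refl => exact ⟨[], Spine.nil _, rfl⟩
  | step q r m _ h2 _ ih =>
    obtain ⟨l, h4, h5⟩ := ih
    obtain ⟨s, hs⟩ : ∃ s, q.2.trees.Perm (r :: s) := ⟨q.2.trees.erase r, List.perm_cons_erase h2⟩
    refine ⟨l ++ [(q.1, s)], spine_snoc h4 hs, ?_⟩
    unfold wd at h5 ⊢
    rw [List.map_append, List.map_cons, List.map_nil, tn_snoc, h5]

theorem spine_size {l : List (Bool × List (Bool × Fd))} {p q : Bool × Fd} (h : Spine l p q) :
    p.2.size + 1 = q.2.size + 1 + psz l := by
  induction h with
  | nil p => simp [psz]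
  | cons d c s p q l hperm _ ih =>
    have h1 : c.size = p.2.size + 1 + tsz s := by
      rw [Fd.size_eq, (hperm.map _).sum_eq, List.map_cons, List.sum_cons]
      rfl
    rw [psz_cons]
    simp only
    omega

theorem spine_deg {b : ℕ} {l : List (Bool × List (Bool × Fd))} {p q : Bool × Fd} (h : Spine l p q) (hl : p.2.len ≤ b)
    (hD : p.2.Deg b) : q.2.len ≤ b ∧ q.2.Deg b ∧ PDeg b l := by
  induction h with
  | nil p => exact ⟨hl, hD, by simp [PDeg]⟩
  | cons d c s p q l hperm _ ih =>
    have h1 : ∀ r, r = p ∨ r ∈ s → r.2.len ≤ b ∧ r.2.Deg b := by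
      intro r hr
      refine (Fd.deg_iff b c).1 hD r ?_
      rw [hperm.mem_iff, List.mem_cons]
      exact hr
    obtain ⟨h2, h3, h4⟩ := ih (h1 p (Or.inl rfl)).1 (h1 p (Or.inl rfl)).2
    refine ⟨h2, h3, ?_⟩
    intro t ht
    rcases List.mem_cons.1 ht with rfl | ht
    · refine ⟨?_, fun r hr => h1 r (Or.inr hr)⟩
      have := hperm.length_eq
      rw [List.length_cons, ← Fd.len_eq] at this
      simp only at hl ⊢
      omega
    · exact h4 t ht

variable {V : Type*} {R : V → V → Prop}

/-- the path `l` with its side trees is embedded, its first vertex at `v`, its last vertex at `w`; `S` is the set of the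
vertices used, with `v` and `w` -/
inductive PE (R : V → V → Prop) : List (Bool × List (Bool × Fd)) → V → V → Finset V → Prop
  | one (d : Bool) (s : List (Bool × Fd)) (v : V) (B : Finset V) : v ∉ B → EmbL R v s B → PE R [(d, s)] v v (insert v B)
  | cons (d : Bool) (s : List (Bool × Fd)) (v : V) (B : Finset V) (t : Bool × List (Bool × Fd))
      (l : List (Bool × List (Bool × Fd))) (v' w : V) (S : Finset V) : v ∉ B → EmbL R v s B → Adj R t.1 v v' →
      PE R (t :: l) v' w S → Disjoint (insert v B) S → PE R ((d, s) :: t :: l) v w (insert v B ∪ S)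

theorem PE.mem {l : List (Bool × List (Bool × Fd))} {v w : V} {S : Finset V} (h : PE R l v w S) : v ∈ S ∧ w ∈ S := by
  induction h with
  | one d s v B _ _ => simp
  | cons d s v B t l v' w S _ _ _ _ _ ih => exact ⟨by simp, mem_union_right _ ih.2⟩

theorem PE.card {l : List (Bool × List (Bool × Fd))} {v w : V} {S : Finset V} (h : PE R l v w S) : S.card = psz l := by
  induction h with
  | one d s v B h1 h2 => rw [card_insert_of_notMem h1, h2.card, psz_cons, psz_nil]; ring
  | cons d s v B t l v' w S h1 h2 _ _ h5 ih =>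
    rw [card_union_of_disjoint h5, card_insert_of_notMem h1, h2.card, ih, psz_cons (d, s)]
    simp only
    ring

/-- one path after the other -/
theorem PE.append {l : List (Bool × List (Bool × Fd))} {v w : V} {S : Finset V} (h : PE R l v w S)
    {t : Bool × List (Bool × Fd)} {l' : List (Bool × List (Bool × Fd))} {v' w' : V} {S' : Finset V}
    (h' : PE R (t :: l') v' w' S') (ha : Adj R t.1 w v') (hd : Disjoint S S') : PE R (l ++ t :: l') v w' (S ∪ S') := by
  induction h with
  | one d s v B h1 h2 => exact PE.cons d s v B t l' v' w' S' h1 h2 ha h' hd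
  | cons d s v B t₁ l v₁ w S h1 h2 h3 _ h5 ih =>
    rw [disjoint_union_left] at hd
    rw [union_assoc]
    exact PE.cons d s v B t₁ (l ++ t :: l') v₁ w' (S ∪ S') h1 h2 h3 (ih ha hd.2) (disjoint_union_right.2 ⟨h5, hd.1⟩)

/-- a path with side trees and the tree behind it -/
theorem PE.emb {l : List (Bool × List (Bool × Fd))} {v w : V} {S : Finset V} (h : PE R l v w S) :
    ∀ {p q : Bool × Fd}, Spine l p q → ∀ {z : V} {A : Finset V}, Adj R q.1 w z → z ∉ A → Emb R q.2 z A →
      Disjoint (insert z A) S → ∃ B, v ∉ B ∧ Emb R p.2 v B ∧ insert v B = S ∪ insert z A := by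
  induction h with
  | one d s v B h1 h2 =>
    intro p q hsp z A ha hz hE hd
    cases hsp with
    | cons _ c _ p' _ _ hperm hsp =>
      cases hsp
      rw [disjoint_insert_right] at hd
      refine ⟨insert z A ∪ B, ?_, ?_, ?_⟩
      · rw [mem_union, not_or]
        exact ⟨hd.1, h1⟩
      · rw [emb_iff]
        exact EmbL.perm hperm.symm ⟨insert z A, B, hd.2, rfl, ⟨z, A, ha, hz, rfl, hE⟩, h2⟩
      · ext u
        simp only [mem_insert, mem_union]
        tauto
  | cons d s v B t l v' w S h1 h2 h3 h4 h5 ih =>
    intro p q hsp z A ha hz hE hd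
    cases hsp with
    | cons _ c _ p' _ _ hperm hsp =>
      rw [disjoint_union_right, disjoint_insert_right] at hd
      obtain ⟨⟨hd1, hd2⟩, hd3⟩ := hd
      obtain ⟨B', b1, b2, b3⟩ := ih hsp ha hz hE hd3
      have hp' : p'.1 = t.1 := by
        cases hsp with
        | cons _ _ _ _ _ _ _ _ => rfl
      have hdB : Disjoint (insert v' B') (insert v B) := by
        rw [b3, disjoint_union_left]
        refine ⟨h5.symm, ?_⟩
        rw [disjoint_insert_right]
        exact ⟨hd1, hd2⟩
      rw [disjoint_insert_right] at hdB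
      refine ⟨insert v' B' ∪ B, ?_, ?_, ?_⟩
      · rw [mem_union, not_or]
        exact ⟨hdB.1, h1⟩
      · rw [emb_iff]
        refine EmbL.perm hperm.symm ⟨insert v' B', B, hdB.2, rfl, ⟨v', B', ?_, b1, rfl, b2⟩, h2⟩
        rw [hp']
        exact h3
      · rw [b3]
        ext u
        simp only [mem_insert, mem_union]
        tauto

/-- the trees at the last vertex of a path when this vertex is made the root; `cur` is the list of the trees at the vertex
before the path -/
def rrA : List (Bool × Fd) → List (Bool × List (Bool × Fd)) → List (Bool × Fd)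
  | cur, [] => cur
  | cur, t :: l => rrA ((!t.1, mk cur) :: t.2) l

/-- the trees at the last vertex of a path when this vertex is made the root -/
def rr : List (Bool × List (Bool × Fd)) → List (Bool × Fd)
  | [] => []
  | t :: l => rrA t.2 l

theorem rrA_size (cur : List (Bool × Fd)) (l : List (Bool × List (Bool × Fd))) : tsz (rrA cur l) = tsz cur + psz l := by
  induction l generalizing cur with
  | nil => simp [rrA, psz]
  | cons t l ih =>
    rw [rrA, ih, tsz_cons, psz_cons, mk_size]
    ring

theorem rr_size (t : Bool × List (Bool × Fd)) (l : List (Bool × List (Bool × Fd))) : tsz (rr (t :: l)) + 1 = psz (t :: l) := by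
  rw [rr, rrA_size, psz_cons]
  ring

theorem rrA_deg {b : ℕ} (cur : List (Bool × Fd)) (l : List (Bool × List (Bool × Fd))) (hc : cur.length ≤ b)
    (hcD : ∀ p ∈ cur, p.2.len ≤ b ∧ p.2.Deg b) (hl : PDeg b l) :
    (rrA cur l).length ≤ b ∧ ∀ p ∈ rrA cur l, p.2.len ≤ b ∧ p.2.Deg b := by
  induction l generalizing cur with
  | nil => exact ⟨hc, hcD⟩
  | cons t l ih =>
    obtain ⟨h1, h2⟩ := hl t (by simp)
    refine ih _ ?_ ?_ (fun u hu => hl u (by simp [hu]))
    · simpa using h1
    · intro p hp
      rcases List.mem_cons.1 hp with rfl | hp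
      · exact ⟨by simpa [mk_len] using hc, mk_deg.2 hcD⟩
      · exact h2 p hp

theorem rr_deg {b : ℕ} (l : List (Bool × List (Bool × Fd))) (hl : PDeg b l) :
    (rr l).length ≤ b ∧ ∀ p ∈ rr l, p.2.len ≤ b ∧ p.2.Deg b := by
  cases l with
  | nil => exact ⟨Nat.zero_le _, by simp [rr]⟩
  | cons t l =>
    obtain ⟨h1, h2⟩ := hl t (by simp)
    exact rrA_deg t.2 l (by omega) h2 (fun u hu => hl u (by simp [hu]))

/-- back to the old root -/
theorem rrA_emb (l : List (Bool × List (Bool × Fd))) : ∀ (d : Bool) (cur : List (Bool × Fd)) {w : V} {S : Finset V},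
    w ∉ S → EmbL R w (rrA cur l) S → ∃ v, PE R ((d, cur) :: l) v w (insert w S) := by
  induction l with
  | nil =>
    intro d cur w S hw h
    exact ⟨w, PE.one d cur w S hw h⟩
  | cons t l ih =>
    intro d cur w S hw h
    obtain ⟨v', hv'⟩ := ih t.1 ((!t.1, mk cur) :: t.2) hw h
    -- the first vertex of the path at `v'` carries the old part
    have key : ∀ (l : List (Bool × List (Bool × Fd))) {v' w : V} {S : Finset V}, PE R ((t.1, (!t.1, mk cur) :: t.2) :: l) v' w S →
        ∃ v, PE R ((d, cur) :: (t.1, t.2) :: l) v w S := by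
      intro l v' w S hP
      cases hP with
      | one _ _ _ B h1 h2 =>
        obtain ⟨S₁, S₂, e1, rfl, ⟨x, A, e2, e3, rfl, e4⟩, e5⟩ := h2
        rw [mem_union, not_or] at h1
        rw [emb_iff, mk_trees] at e4
        have hx : Disjoint (insert x A) (insert v' S₂) := by
          rw [disjoint_insert_right]
          exact ⟨h1.1, e1⟩
        refine ⟨x, ?_⟩
        have hP := PE.cons d cur x A (t.1, t.2) [] v' v' (insert v' S₂) e3 e4 (by
          have := e2
          cases ht : t.1 <;> simp_all [Adj]) (PE.one t.1 t.2 v' S₂ h1.2 e5) hx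
        have : insert v' (insert x A ∪ S₂) = insert x A ∪ insert v' S₂ := by
          ext u; simp only [mem_insert, mem_union]; tauto
        rw [this]
        exact hP
      | cons _ _ _ B t' l v₁ _ S h1 h2 h3 h4 h5 =>
        obtain ⟨S₁, S₂, e1, rfl, ⟨x, A, e2, e3, rfl, e4⟩, e5⟩ := h2
        rw [mem_union, not_or] at h1
        rw [emb_iff, mk_trees] at e4
        have h5' : Disjoint (insert v' S₂) S := h5.mono_left (by
          intro u; simp only [mem_insert, mem_union]; tauto)
        have h5'' : Disjoint (insert x A) S := h5.mono_left (by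
          intro u; simp only [mem_insert, mem_union]; tauto)
        have hx : Disjoint (insert x A) (insert v' S₂ ∪ S) := by
          rw [disjoint_union_right, disjoint_insert_right]
          exact ⟨⟨h1.1, e1⟩, h5''⟩
        refine ⟨x, ?_⟩
        have hP := PE.cons d cur x A (t.1, t.2) (t' :: l) v' w (insert v' S₂ ∪ S) e3 e4 (by
          have := e2
          cases ht : t.1 <;> simp_all [Adj]) (PE.cons t.1 t.2 v' S₂ t' l v₁ w S h1.2 e5 h3 h4 h5') hx
        have : insert v' (insert x A ∪ S₂) ∪ S = insert x A ∪ (insert v' S₂ ∪ S) := by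
          ext u; simp only [mem_insert, mem_union]; tauto
        rw [this]
        exact hP
    obtain ⟨v, hv⟩ := key l hv'
    exact ⟨v, hv⟩

theorem rr_emb {t : Bool × List (Bool × Fd)} {l : List (Bool × List (Bool × Fd))} {w : V} {S : Finset V} (hw : w ∉ S)
    (h : EmbL R w (rr (t :: l)) S) : ∃ v, PE R (t :: l) v w (insert w S) := rrA_emb l t.1 t.2 hw h

end AESK
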