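import Pool.Agent.AESK.PE
import Pool.Agent.AELT.CoreEmbed

/-!
# Two prescribed hosts in a clean core

A path with side trees is embedded in an expanding set `Y`: either all hosts of the path are given (bounded length), or the
path is long and the hosts of its two ends are given.
-/

namespace AESK

open Finset AE15 AED AELT
open scoped Classical

variable {V : Type*} {R : V → V → Prop}

theorem PE.of_hosts (l : List (Bool × List (Bool × Fd))) : ∀ (t : Bool × List (Bool × Fd)) (h : V × Finset V)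
    (hs : List (V × Finset V)), hs.length = l.length → Wk R h.1 ((l.zip hs).map (fun t => (t.1.1, t.2.1))) →
    EmbL R h.1 t.2 h.2 → (∀ u ∈ l.zip hs, EmbL R u.2.1 u.1.2 u.2.2) →
    ((h :: hs).map (fun t => insert t.1 t.2)).Pairwise Disjoint → (∀ t ∈ h :: hs, t.1 ∉ t.2) →
    PE R (t :: l) h.1 ((hs.map Prod.fst).getLastD h.1) (((h :: hs).map (fun t => insert t.1 t.2)).foldr (· ∪ ·) ∅) := by
  induction l with
  | nil =>
    intro t h hs hlen _ h2 _ _ h5
    obtain rfl : hs = [] := List.length_eq_zero_iff.1 hlen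
    have := PE.one t.1 t.2 h.1 h.2 (h5 h (by simp)) h2
    simpa using this
  | cons t' l ih =>
    intro t h hs hlen h1 h2 h3 h4 h5
    obtain _ | ⟨h', hs⟩ := hs
    · simp at hlen
    simp only [List.length_cons, Nat.add_right_cancel_iff] at hlen
    simp only [List.zip_cons_cons, List.map_cons, Wk] at h1
    simp only [List.zip_cons_cons, List.mem_cons, forall_eq_or_imp] at h3
    rw [List.map_cons, List.pairwise_cons] at h4
    have hr := ih t' h' hs hlen h1.2 h3.1 h3.2 h4.2 (fun u hu => h5 u (by simp only [List.mem_cons] at hu ⊢; tauto))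
    have hd : Disjoint (insert h.1 h.2) (((h' :: hs).map (fun t => insert t.1 t.2)).foldr (· ∪ ·) ∅) := by
      have key : ∀ L : List (Finset V), (∀ S ∈ L, Disjoint (insert h.1 h.2) S) →
          Disjoint (insert h.1 h.2) (L.foldr (· ∪ ·) ∅) := by
        intro L
        induction L with
        | nil => intro _; simp
        | cons S L ihL =>
          intro hL
          rw [List.foldr_cons, disjoint_union_right]
          exact ⟨hL S (by simp), ihL (fun S' hS' => hL S' (by simp [hS']))⟩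
      exact key _ h4.1
    have e1 : ((h' :: hs).map Prod.fst).getLastD h.1 = (hs.map Prod.fst).getLastD h'.1 := by
      rw [List.map_cons, List.getLastD_cons]
    rw [e1]
    exact PE.cons t.1 t.2 h.1 h.2 t' l h'.1 _ _ (h5 h (by simp)) h2 h1.1 hr hd

theorem Wk_append (y : V) (l : List (Bool × V)) (d : Bool) (z : V) :
    Wk R y (l ++ [(d, z)]) ↔ Wk R y l ∧ Adj R d ((l.map Prod.snd).getLastD y) z := by
  induction l generalizing y with
  | nil => simp [Wk]
  | cons p l ih =>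
    simp only [List.cons_append, Wk, ih, List.map_cons, List.getLastD_cons, and_assoc]

/-- the side trees of a path with given hosts -/
theorem LS.path {b ℓ : ℕ} {ρ C κ : ℝ} {Y U Rc Ro : Finset V} {w₀ : ℕ} (h : Ctx R b ℓ ρ C κ Y U Rc Ro w₀) (J : ℕ)
    (t : Bool × List (Bool × Fd)) (l : List (Bool × List (Bool × Fd))) (hl : PDeg b (t :: l)) (v : V)
    (wk : List (Bool × V)) (hwk : wk.map Prod.fst = l.map Prod.fst) (hW : Wk R v wk) (hvY : v ∈ Y)
    (hwY : ∀ p ∈ wk, p.2 ∈ Y) (hnd : (v :: wk.map Prod.snd).Nodup) (W : Finset V)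
    (hVW : (v :: wk.map Prod.snd).toFinset ⊆ W) (hc1 : (W ∩ Rc).card + (l.length + 1) * (b * cc b ℓ J) ≤ w₀)
    (hc2 : ρ * ((t :: l).map (fun t => orpL b ℓ J t.2)).sum + C + (W ∩ Ro).card ≤ κ)
    (hc3 : ρ * (((t :: l).map (fun t => tsz t.2)).sum : ℕ) + C + (W ∩ U).card ≤ (U.card : ℝ)) :
    ∃ D : Finset V, D ⊆ U ∪ Rc ∪ Ro ∧ Disjoint D W ∧
      PE R (t :: l) v ((wk.map Prod.snd).getLastD v) ((v :: wk.map Prod.snd).toFinset ∪ D) := by
  have hlen : (v :: wk.map Prod.snd).length = (t :: l).length := by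
    have := congrArg List.length hwk
    simp only [List.length_map] at this
    simp [this]
  have hb : ((t :: l).map (fun t => t.2.length * cc b ℓ J)).sum ≤ (l.length + 1) * (b * cc b ℓ J) := by
    have h3 := List.sum_le_card_nsmul ((t :: l).map (fun t => t.2.length * cc b ℓ J)) (b * cc b ℓ J) (by
      intro x hx
      obtain ⟨u, hu, rfl⟩ := List.mem_map.1 hx
      have := (hl u hu).1
      exact Nat.mul_le_mul_right _ (by omega))
    rw [List.length_map, smul_eq_mul, List.length_cons] at h3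
    exact h3
  obtain ⟨hs, r1, r2, r3, r4, D, -, -, -, -⟩ := LS.fam h.hρ (LS.all h J) (t :: l) (v :: wk.map Prod.snd) W hlen
    (by
      intro x hx
      refine ⟨?_, hVW (List.mem_toFinset.2 hx)⟩
      rcases List.mem_cons.1 hx with rfl | hx
      · exact hvY
      · obtain ⟨p, hp, rfl⟩ := List.mem_map.1 hx
        exact hwY p hp)
    (fun u hu p hp => (hl u hu).2 p hp) (by omega) hc2 hc3
  obtain _ | ⟨h₀, hs⟩ := hs
  · simp at r1
  rw [List.map_cons, List.cons.injEq] at r1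
  obtain ⟨r1, r1'⟩ := r1
  have hsl : hs.length = l.length := by
    have h1 := congrArg List.length r1'
    have h2 := congrArg List.length hwk
    simp only [List.length_map] at h1 h2
    omega
  have hsW : ∀ u ∈ h₀ :: hs, u.1 ∈ W := by
    intro u hu
    refine hVW (List.mem_toFinset.2 ?_)
    rw [← r1, ← r1', ← List.map_cons]
    exact List.mem_map_of_mem hu
  have hnot : ∀ u ∈ h₀ :: hs, ∀ u' ∈ h₀ :: hs, u.1 ∉ u'.2 := fun u hu u' hu' hm =>
    disjoint_left.1 (r4 u' hu').2 hm (hsW u hu)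
  have hpw : ((h₀ :: hs).map (fun t => insert t.1 t.2)).Pairwise Disjoint := by
    rw [List.pairwise_map]
    have hnd' : (h₀ :: hs).Pairwise (fun t t' => t.1 ≠ t'.1) := by
      rw [← List.pairwise_map (f := Prod.fst) (R := (· ≠ ·)), List.map_cons, r1, r1']
      exact hnd
    refine (r3.and hnd').imp_of_mem (fun {u u'} hu hu' htt => ?_)
    rw [disjoint_insert_left, disjoint_insert_right, mem_insert, not_or]
    exact ⟨⟨htt.2, hnot u hu u' hu'⟩, hnot u' hu' u hu, htt.1⟩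
  simp only [List.zip_cons_cons, List.mem_cons, forall_eq_or_imp] at r2
  have hPE := PE.of_hosts l t h₀ hs hsl (by rw [zip_aux l hs wk hwk r1', r1]; exact hW) r2.1 r2.2 hpw
    (fun u hu => hnot u hu u hu)
  rw [r1', r1] at hPE
  -- the set
  obtain ⟨D, hD⟩ : ∃ D, D = ((h₀ :: hs).map Prod.snd).foldr (· ∪ ·) ∅ := ⟨_, rfl⟩
  have hfold : ∀ (L : List (V × Finset V)), (L.map (fun t => insert t.1 t.2)).foldr (· ∪ ·) ∅ =
      (L.map Prod.fst).toFinset ∪ (L.map Prod.snd).foldr (· ∪ ·) ∅ := by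
    intro L
    induction L with
    | nil => simp
    | cons a L ih =>
      simp only [List.map_cons, List.foldr_cons, List.toFinset_cons, ih]
      ext u
      simp only [mem_union, mem_insert]
      tauto
  have hmem : ∀ (L : List (V × Finset V)) (Q : Finset V), (∀ a ∈ L, a.2 ⊆ Q) → (L.map Prod.snd).foldr (· ∪ ·) ∅ ⊆ Q := by
    intro L Q
    induction L with
    | nil => intro _; simp
    | cons a L ih =>
      intro hL
      simp only [List.map_cons, List.foldr_cons]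
      exact union_subset (hL a (by simp)) (ih (fun a' ha' => hL a' (by simp [ha'])))
  refine ⟨D, ?_, ?_, ?_⟩
  · rw [hD]
    exact hmem _ _ (fun a ha => (r4 a ha).1)
  · have hdis : ∀ (L : List (V × Finset V)), (∀ a ∈ L, Disjoint a.2 W) → Disjoint ((L.map Prod.snd).foldr (· ∪ ·) ∅) W := by
      intro L
      induction L with
      | nil => intro _; simp
      | cons a L ih =>
        intro hL
        simp only [List.map_cons, List.foldr_cons]
        rw [disjoint_union_left]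
        exact ⟨hL a (by simp), ih (fun a' ha' => hL a' (by simp [ha']))⟩
    rw [hD]
    exact hdis _ (fun a ha => (r4 a ha).2)
  · rw [hfold, List.map_cons, r1, r1'] at hPE
    rw [hD]
    exact hPE

/-- sums of the bounds for the orphans -/
theorem orp_path {b ℓ J : ℕ} (hb : 1 ≤ b) (l : List (Bool × List (Bool × Fd))) (hl : ∀ t ∈ l, t.2.length ≤ b) :
    (l.map (fun t => orpL b ℓ J t.2)).sum ≤ (1 - 1 / ((b : ℝ) + 1) ^ ℓ) ^ J * psz l +
      l.length * (b * ((ℓ * b + 1 : ℝ) ^ J * ((b : ℝ) + 1) ^ (ℓ + 1))) := by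
  induction l with
  | nil => simp [psz]
  | cons t l ih =>
    have h1 := ih (fun u hu => hl u (by simp [hu]))
    have h2 := hl t (by simp)
    have h3 : orpL b ℓ J t.2 = (1 - 1 / ((b : ℝ) + 1) ^ ℓ) ^ J * tsz t.2 +
      t.2.length * ((ℓ * b + 1 : ℝ) ^ J * ((b : ℝ) + 1) ^ (ℓ + 1)) := orpL_eq b ℓ J t.2
    have h4 : (0 : ℝ) ≤ (ℓ * b + 1 : ℝ) ^ J * ((b : ℝ) + 1) ^ (ℓ + 1) := by positivity
    have h5 : (t.2.length : ℝ) ≤ b := by exact_mod_cast h2
    have h6 : 0 ≤ (1 - 1 / ((b : ℝ) + 1) ^ ℓ) ^ J := pow_nonneg (lam_nonneg b ℓ) _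
    rw [List.map_cons, List.sum_cons, psz_cons, List.length_cons, h3]
    push_cast
    linarith [mul_le_mul_of_nonneg_right h5 h4]

theorem sum_tsz_le (l : List (Bool × List (Bool × Fd))) : (l.map (fun t => tsz t.2)).sum ≤ psz l := by
  induction l with
  | nil => simp [psz]
  | cons t l ih =>
    rw [List.map_cons, List.sum_cons, psz_cons]
    omega

theorem psz_len (l : List (Bool × List (Bool × Fd))) : (l.map (fun t => tsz t.2)).sum + l.length = psz l := by
  induction l with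
  | nil => simp [psz]
  | cons t l ih =>
    rw [List.map_cons, List.sum_cons, psz_cons, List.length_cons]
    omega

/-- **The hosts of the path are given** -/
theorem core_hosts (b : ℕ) (hb : 1 ≤ b) {ρ C α β : ℝ} (hρ : 1 ≤ ρ) (hC : 0 ≤ C) (hα : 0 < α) (hα1 : α ≤ 1) (hβ : 0 < β)
    (m : ℕ) : ∃ n₀ : ℕ, ∀ {V : Type} {R : V → V → Prop}, AE32.Tour R → Un R b ρ C → ∀ Y : Finset V, n₀ ≤ Y.card →
      Ex R (α * Y.card) Y → ∀ (t : Bool × List (Bool × Fd)) (l : List (Bool × List (Bool × Fd))), PDeg b (t :: l) →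
        l.length ≤ m → ρ * psz (t :: l) ≤ (1 - β) * Y.card → ∀ v ∈ Y, ∀ wk : List (Bool × V),
          wk.map Prod.fst = l.map Prod.fst → Wk R v wk → (∀ p ∈ wk, p.2 ∈ Y) → (v :: wk.map Prod.snd).Nodup →
            ∃ S ⊆ Y, PE R (t :: l) v ((wk.map Prod.snd).getLastD v) S := by
  obtain ⟨ℓ, hℓ⟩ := exists_reserve hα hα1
  obtain ⟨ζ, hζd⟩ : ∃ ζ : ℝ, ζ = min (β / 6) (1 / 8) := ⟨_, rfl⟩
  have hζ : 0 < ζ := by rw [hζd]; exact lt_min (by positivity) (by norm_num)
  have hζβ : 6 * ζ ≤ β := by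
    have : ζ ≤ β / 6 := by rw [hζd]; exact min_le_left _ _
    linarith
  have hζ8 : ζ ≤ 1 / 8 := by rw [hζd]; exact min_le_right _ _
  obtain ⟨lam, hlam⟩ : ∃ lam : ℝ, lam = 1 - 1 / ((b : ℝ) + 1) ^ ℓ := ⟨_, rfl⟩
  have hl0 : 0 ≤ lam := by rw [hlam]; exact lam_nonneg b ℓ
  have hl1 : lam < 1 := by
    rw [hlam]
    have : (0 : ℝ) < 1 / ((b : ℝ) + 1) ^ ℓ := by positivity
    linarith
  obtain ⟨J, hJ⟩ := exists_pow_lt_of_lt_one (show 0 < α * ζ / (8 * ρ) by positivity) hl1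
  obtain ⟨M, hM⟩ : ∃ M : ℝ, M = (ℓ * b + 1 : ℝ) ^ J * ((b : ℝ) + 1) ^ (ℓ + 1) := ⟨_, rfl⟩
  have hM0 : 0 ≤ M := by rw [hM]; positivity
  obtain ⟨n₂, hn₂⟩ := hℓ ζ ((m + 1) + (m + 1) * (b * cc b ℓ J)) hζ hζ8
  obtain ⟨n₃, hn₃⟩ : ∃ n₃ : ℕ, n₃ = ⌈(ρ * ((m + 1) * (b * M)) + C + (m + 1)) / (α * ζ / 8)⌉₊ := ⟨_, rfl⟩
  refine ⟨max n₂ n₃, ?_⟩
  intro V R hT hU Y hn hEx t l hD hlm hsz v hv wk hwk hW hwY hnd
  obtain ⟨U, Rc, Ro, hUY, hcY, hoY, h1, h2, h3, hUc, ho, hc⟩ := hn₂ hT Y ((le_max_left _ _).trans hn) hEx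
  obtain ⟨n, hnd'⟩ : ∃ n : ℝ, n = (Y.card : ℝ) := ⟨_, rfl⟩
  have hn0 : 0 ≤ n := by rw [hnd']; exact Nat.cast_nonneg _
  have hbig : ρ * ((m + 1) * (b * M)) + C + (m + 1) ≤ α * ζ / 8 * n := by
    have h4 : (ρ * ((m + 1) * (b * M)) + C + (m + 1)) / (α * ζ / 8) ≤ n := by
      refine (Nat.le_ceil _).trans ?_
      rw [← hn₃, hnd']
      exact_mod_cast (le_max_right _ _).trans hn
    rw [div_le_iff₀ (by positivity)] at h4
    linarith
  rw [← hnd'] at hsz hUc ho
  have hWc : ((v :: wk.map Prod.snd).toFinset).card ≤ m + 1 := by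
    refine (List.toFinset_card_le _).trans ?_
    have := congrArg List.length hwk
    simp only [List.length_map] at this
    simp only [List.length_cons, List.length_map]
    omega
  have hWQ : ∀ Q : Finset V, ((v :: wk.map Prod.snd).toFinset ∩ Q).card ≤ m + 1 := fun Q =>
    (card_le_card inter_subset_left).trans hWc
  have hps : (psz (t :: l) : ℝ) ≤ n := by
    have h4 : (0 : ℝ) ≤ psz (t :: l) := Nat.cast_nonneg _
    have h5 := mul_le_mul_of_nonneg_right hρ h4
    have h6 := mul_nonneg hβ.le hn0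
    linarith
  have horp := orp_path (ℓ := ℓ) (J := J) hb (t :: l) (fun u hu => by have := (hD u hu).1; omega)
  rw [← hlam, ← hM] at horp
  have hlen : (((t :: l).length : ℕ) : ℝ) ≤ m + 1 := by
    rw [List.length_cons]
    push_cast
    have : (l.length : ℝ) ≤ m := by exact_mod_cast hlm
    linarith
  have horp' : ((t :: l).map (fun t => orpL b ℓ J t.2)).sum ≤ α * ζ / (8 * ρ) * n + (m + 1) * (b * M) := by
    have h4 : lam ^ J * (psz (t :: l) : ℝ) ≤ α * ζ / (8 * ρ) * n :=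
      mul_le_mul hJ.le hps (Nat.cast_nonneg _) (by positivity)
    have h5 : (((t :: l).length : ℕ) : ℝ) * (b * M) ≤ (m + 1) * (b * M) :=
      mul_le_mul_of_nonneg_right hlen (by positivity)
    linarith
  obtain ⟨D, d1, d2, d3⟩ := LS.path (κ := α / 2 * ζ * n) ⟨hb, hρ, hC, hU, hUY, hcY, hoY, h1, h2, h3, hc,
    fun y hy d => ho y hy d⟩ J t l hD v wk hwk hW hv hwY hnd (v :: wk.map Prod.snd).toFinset (Subset.refl _)
    (by
      have h4 := hWQ Rc
      have h5 : (l.length + 1) * (b * cc b ℓ J) ≤ (m + 1) * (b * cc b ℓ J) := Nat.mul_le_mul_right _ (by omega)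
      omega)
    (by
      have h4 : (((v :: wk.map Prod.snd).toFinset ∩ Ro).card : ℝ) ≤ m + 1 := by exact_mod_cast hWQ Ro
      have h5 := mul_le_mul_of_nonneg_left horp' (by linarith : (0 : ℝ) ≤ ρ)
      have h6 : ρ * (α * ζ / (8 * ρ) * n + (m + 1) * (b * M)) = α * ζ / 8 * n + ρ * ((m + 1) * (b * M)) := by
        field_simp
      have h7 : 0 ≤ α * ζ * n := by positivity
      linarith)
    (by
      have h4 : (((v :: wk.map Prod.snd).toFinset ∩ U).card : ℝ) ≤ m + 1 := by exact_mod_cast hWQ U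
      have h5 : α * ζ / 8 * n ≤ 1 / 8 * ζ * n := by
        have : α * (ζ * n) ≤ 1 * (ζ * n) := mul_le_mul_of_nonneg_right hα1 (by positivity)
        linarith
      have h6 : 6 * ζ * n ≤ β * n := mul_le_mul_of_nonneg_right hζβ hn0
      have h7 : 0 ≤ ρ * ((m + 1) * (b * M)) := by positivity
      have h8 : 0 ≤ ζ * n := by positivity
      have h9 : ((((t :: l).map (fun t => tsz t.2)).sum : ℕ) : ℝ) ≤ psz (t :: l) := by exact_mod_cast sum_tsz_le _
      have h10 := mul_le_mul_of_nonneg_left h9 (by linarith : (0 : ℝ) ≤ ρ)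
      linarith)
  refine ⟨_, ?_, d3⟩
  refine union_subset ?_ (d1.trans (union_subset (union_subset hUY hcY) hoY))
  intro x hx
  rw [List.mem_toFinset] at hx
  rcases List.mem_cons.1 hx with rfl | hx
  · exact hv
  · obtain ⟨p, hp, rfl⟩ := List.mem_map.1 hx
    exact hwY p hp

/-- **The path is long and the hosts of its ends are given** -/
theorem core_long (b : ℕ) (hb : 1 ≤ b) {ρ C α β : ℝ} (hρ : 1 ≤ ρ) (hC : 0 ≤ C) (hα : 0 < α) (hα1 : α ≤ 1) (hβ : 0 < β) :
    ∃ m n₀ : ℕ, ∀ {V : Type} {R : V → V → Prop}, AE32.Tour R → Un R b ρ C → ∀ Y : Finset V, n₀ ≤ Y.card →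
      Ex R (α * Y.card) Y → ∀ l : List (Bool × List (Bool × Fd)), PDeg b l → m ≤ l.length →
        ρ * psz l ≤ (1 - β) * Y.card → ∀ v ∈ Y, ∀ w ∈ Y, v ≠ w → ∃ S ⊆ Y, PE R l v w S := by
  obtain ⟨ℓ, hℓ⟩ := exists_reserve hα hα1
  obtain ⟨ζ, hζd⟩ : ∃ ζ : ℝ, ζ = min (β / 6) (1 / 8) := ⟨_, rfl⟩
  have hζ : 0 < ζ := by rw [hζd]; exact lt_min (by positivity) (by norm_num)
  have hζβ : 6 * ζ ≤ β := by
    have : ζ ≤ β / 6 := by rw [hζd]; exact min_le_left _ _
    linarith
  have hζ8 : ζ ≤ 1 / 8 := by rw [hζd]; exact min_le_right _ _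
  obtain ⟨lam, hlam⟩ : ∃ lam : ℝ, lam = 1 - 1 / ((b : ℝ) + 1) ^ ℓ := ⟨_, rfl⟩
  have hl0 : 0 ≤ lam := by rw [hlam]; exact lam_nonneg b ℓ
  have hl1 : lam < 1 := by
    rw [hlam]
    have : (0 : ℝ) < 1 / ((b : ℝ) + 1) ^ ℓ := by positivity
    linarith
  obtain ⟨J, hJ⟩ := exists_pow_lt_of_lt_one (show 0 < α * ζ / (8 * ρ) by positivity) hl1
  obtain ⟨M, hM⟩ : ∃ M : ℝ, M = (ℓ * b + 1 : ℝ) ^ J * ((b : ℝ) + 1) ^ (ℓ + 1) := ⟨_, rfl⟩
  have hM0 : 0 ≤ M := by rw [hM]; positivity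
  obtain ⟨n₂, hn₂⟩ := hℓ ζ (2 + b * cc b ℓ J + ℓ + (ℓ + 1) * (b * cc b ℓ J)) hζ hζ8
  obtain ⟨n₃, hn₃⟩ : ∃ n₃ : ℕ, n₃ = ⌈(ρ * ((ℓ + 2) * (b * M)) + C + 2) / (α * ζ / 8)⌉₊ := ⟨_, rfl⟩
  refine ⟨ℓ + 2, max n₂ n₃, ?_⟩
  intro V R hT hU Y hn hEx l hD hlm hsz v hv w hw hvw
  obtain ⟨U, Rc, Ro, hUY, hcY, hoY, h1, h2, h3, hUc, ho, hc⟩ := hn₂ hT Y ((le_max_left _ _).trans hn) hEx
  obtain ⟨n, hnd'⟩ : ∃ n : ℝ, n = (Y.card : ℝ) := ⟨_, rfl⟩
  have hn0 : 0 ≤ n := by rw [hnd']; exact Nat.cast_nonneg _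
  have hbig : ρ * ((ℓ + 2) * (b * M)) + C + 2 ≤ α * ζ / 8 * n := by
    have h4 : (ρ * ((ℓ + 2) * (b * M)) + C + 2) / (α * ζ / 8) ≤ n := by
      refine (Nat.le_ceil _).trans ?_
      rw [← hn₃, hnd']
      exact_mod_cast (le_max_right _ _).trans hn
    rw [div_le_iff₀ (by positivity)] at h4
    linarith
  rw [← hnd'] at hsz hUc ho
  -- the two parts of the path
  obtain ⟨l1, l2, rfl, hl1'⟩ : ∃ l1 l2, l = l1 ++ l2 ∧ l1.length = ℓ + 1 :=
    ⟨l.take (ℓ + 1), l.drop (ℓ + 1), (List.take_append_drop _ _).symm, by rw [List.length_take]; omega⟩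
  obtain _ | ⟨t, l1⟩ := l1
  · simp at hl1'
  rw [List.length_append] at hlm
  obtain _ | ⟨u, l2⟩ := l2
  · simp at hlm
    simp at hl1'
    omega
  rw [List.length_cons, Nat.add_right_cancel_iff] at hl1'
  have hD1 : PDeg b (t :: l1) := fun x hx => hD x (List.mem_append_left _ hx)
  have hD2 : PDeg b (u :: l2) := fun x hx => hD x (List.mem_append_right _ hx)
  rw [psz_append] at hsz
  push_cast at hsz
  have p1 : (0 : ℝ) ≤ psz (t :: l1) := Nat.cast_nonneg _
  have p2 : (0 : ℝ) ≤ psz (u :: l2) := Nat.cast_nonneg _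
  have hps1 : (psz (t :: l1) : ℝ) + psz (u :: l2) ≤ n := by
    have h5 := mul_le_mul_of_nonneg_right hρ (add_nonneg p1 p2)
    have h6 := mul_nonneg hβ.le hn0
    linarith
  have hrs : ((tsz (rr (u :: l2)) : ℕ) : ℝ) + 1 = psz (u :: l2) := by exact_mod_cast rr_size u l2
  obtain ⟨hr1, hr2⟩ := rr_deg (u :: l2) hD2
  have hr1' : ((rr (u :: l2)).length : ℝ) ≤ b := by exact_mod_cast hr1
  have hκ : ρ * (α * ζ / (8 * ρ) * n) = α * ζ / 8 * n := by field_simp
  have hcc : (0 : ℝ) ≤ ρ * ((ℓ + 2) * (b * M)) := by positivity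
  -- the first orphan bound
  have o1 : orpL b ℓ J (rr (u :: l2)) ≤ lam ^ J * psz (u :: l2) + b * M := by
    rw [orpL_eq, ← hlam, ← hM]
    have h4 : lam ^ J * (tsz (rr (u :: l2)) : ℝ) ≤ lam ^ J * psz (u :: l2) :=
      mul_le_mul_of_nonneg_left (by linarith) (pow_nonneg hl0 _)
    have h5 := mul_le_mul_of_nonneg_right hr1' hM0
    linarith
  have o2 := orp_path (ℓ := ℓ) (J := J) hb (t :: l1) (fun x hx => by have := (hD1 x hx).1; omega)
  rw [← hlam, ← hM, List.length_cons, hl1'] at o2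
  push_cast at o2
  have o3 : lam ^ J * (psz (t :: l1) : ℝ) + lam ^ J * psz (u :: l2) ≤ α * ζ / (8 * ρ) * n := by
    rw [← mul_add]
    exact mul_le_mul hJ.le hps1 (by linarith) (by positivity)
  have o4 : 0 ≤ lam ^ J * (psz (t :: l1) : ℝ) := mul_nonneg (pow_nonneg hl0 _) p1
  have o5 : 0 ≤ lam ^ J * (psz (u :: l2) : ℝ) := mul_nonneg (pow_nonneg hl0 _) p2
  have o6 : ρ * (lam ^ J * (psz (t :: l1) : ℝ)) + ρ * (lam ^ J * psz (u :: l2)) ≤ α * ζ / 8 * n := by
    rw [← hκ, ← mul_add]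
    exact mul_le_mul_of_nonneg_left o3 (by linarith)
  have hbM : 0 ≤ (b : ℝ) * M := by positivity
  have hαζ : 0 ≤ α * ζ * n := by positivity
  have hαζ1 : α * ζ * n ≤ ζ * n := by
    have : α * (ζ * n) ≤ 1 * (ζ * n) := mul_le_mul_of_nonneg_right hα1 (by positivity)
    linarith
  have h6 : 6 * ζ * n ≤ β * n := mul_le_mul_of_nonneg_right hζβ hn0
  have hW2 : ∀ Q : Finset V, (({v, w} : Finset V) ∩ Q).card ≤ 2 := fun Q =>
    (card_le_card inter_subset_left).trans (card_le_two)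
  have ctx : Ctx R b ℓ ρ C (α / 2 * ζ * n) Y U Rc Ro (2 + b * cc b ℓ J + ℓ + (ℓ + 1) * (b * cc b ℓ J)) :=
    ⟨hb, hρ, hC, hU, hUY, hcY, hoY, h1, h2, h3, hc, fun y hy d => ho y hy d⟩
  have hlc : (rr (u :: l2)).length * cc b ℓ J ≤ b * cc b ℓ J := Nat.mul_le_mul_right _ hr1
  -- the end of the path
  obtain ⟨S1, s1, s2, s3, s4, s5, s6⟩ := LS.all ctx J (rr (u :: l2)) w {v, w} hr2 hw (by simp)
    (by have := hW2 Rc; omega)
    (by
      have h4 : ((({v, w} : Finset V) ∩ Ro).card : ℝ) ≤ 2 := by exact_mod_cast hW2 Ro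
      have h5 := mul_le_mul_of_nonneg_left o1 (by linarith : (0 : ℝ) ≤ ρ)
      have h7 : ρ * (b * M) ≤ ρ * ((ℓ + 2) * (b * M)) := by
        have h8 : 0 ≤ ((ℓ : ℝ) + 1) * (b * M) := by positivity
        linarith [mul_nonneg (by linarith : (0 : ℝ) ≤ ρ) h8]
      linarith [mul_nonneg (by linarith : (0 : ℝ) ≤ ρ) o4])
    (by
      have h4 : ((({v, w} : Finset V) ∩ U).card : ℝ) ≤ 2 := by exact_mod_cast hW2 U
      have h5 : ρ * (tsz (rr (u :: l2)) : ℝ) ≤ ρ * psz (u :: l2) :=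
        mul_le_mul_of_nonneg_left (by linarith) (by linarith)
      have h7 := mul_nonneg (by linarith : (0 : ℝ) ≤ ρ) p1
      linarith)
  rw [disjoint_insert_right, disjoint_singleton_right] at s3
  obtain ⟨hvS, hwS⟩ := s3
  obtain ⟨z, hz⟩ := rr_emb hwS s1
  have hS1Y : insert w S1 ⊆ Y := by
    refine insert_subset hw (s2.trans ?_)
    exact union_subset (union_subset hUY hcY) hoY
  have hzY : z ∈ Y := hS1Y hz.mem.1
  -- the connection
  have hsplit : ∀ Q : Finset V, ((insert v (insert w S1)) ∩ Q).card ≤ 2 + (S1 ∩ Q).card := by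
    intro Q
    have h4 : insert v (insert w S1) = {v, w} ∪ S1 := by
      ext x; simp only [mem_insert, mem_union, mem_singleton]; tauto
    rw [h4]
    have := card_union_inter_le {v, w} S1 Q
    have := hW2 Q
    omega
  obtain ⟨wk, k1, k2, k3, k4⟩ := hc v hv z hzY (l1.map Prod.fst) (by simpa using hl1') u.1 (insert v (insert w S1))
    (by
      have := hsplit Rc
      omega)
  rw [Wk_append] at k2
  have hwkl : wk.length = ℓ := by
    have := congrArg List.length k1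
    simp only [List.length_map] at this
    omega
  have hwkY : ∀ p ∈ wk, p.2 ∈ Y := fun p hp => hcY (k4 p hp).1
  have hXR : (wk.map Prod.snd).toFinset ⊆ Rc := by
    intro x hx
    rw [List.mem_toFinset] at hx
    obtain ⟨p, hp, rfl⟩ := List.mem_map.1 hx
    exact (k4 p hp).1
  have hXd : Disjoint (wk.map Prod.snd).toFinset (insert v (insert w S1)) := by
    rw [disjoint_left]
    intro x hx
    rw [List.mem_toFinset] at hx
    obtain ⟨p, hp, rfl⟩ := List.mem_map.1 hx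
    exact (k4 p hp).2
  have hXc : (wk.map Prod.snd).toFinset.card ≤ ℓ := by
    refine (List.toFinset_card_le _).trans ?_
    rw [List.length_map, hwkl]
  have hnd : (v :: wk.map Prod.snd).Nodup := by
    refine List.nodup_cons.2 ⟨?_, k3⟩
    intro hm
    exact disjoint_left.1 hXd (List.mem_toFinset.2 hm) (mem_insert_self _ _)
  obtain ⟨W, hW⟩ : ∃ W, W = insert v (insert w S1) ∪ (wk.map Prod.snd).toFinset := ⟨_, rfl⟩
  have hWQ : ∀ Q : Finset V, (W ∩ Q).card ≤ 2 + (S1 ∩ Q).card + ((wk.map Prod.snd).toFinset ∩ Q).card := by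
    intro Q
    rw [hW]
    have := card_union_inter_le (insert v (insert w S1)) (wk.map Prod.snd).toFinset Q
    have := hsplit Q
    omega
  have hXo : (wk.map Prod.snd).toFinset ∩ Ro = ∅ := by
    rw [← disjoint_iff_inter_eq_empty]
    exact disjoint_of_subset_left hXR h3
  have hXU : (wk.map Prod.snd).toFinset ∩ U = ∅ := by
    rw [← disjoint_iff_inter_eq_empty]
    exact disjoint_of_subset_left hXR h1.symm
  obtain ⟨D, d1, d2, d3⟩ := LS.path ctx J t l1 hD1 v wk k1 k2.1 hv hwkY hnd W (by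
      intro x hx
      rw [List.mem_toFinset, List.mem_cons] at hx
      rw [hW, mem_union]
      rcases hx with rfl | hx
      · exact Or.inl (mem_insert_self _ _)
      · exact Or.inr (List.mem_toFinset.2 hx))
    (by
      have h4 := hWQ Rc
      have h5 : ((wk.map Prod.snd).toFinset ∩ Rc).card ≤ ℓ := (card_le_card inter_subset_left).trans hXc
      rw [hl1']
      omega)
    (by
      have h4 : ((W ∩ Ro).card : ℝ) ≤ 2 + (S1 ∩ Ro).card := by
        have h5 := hWQ Ro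
        rw [hXo, card_empty] at h5
        exact_mod_cast h5
      have h5 := mul_le_mul_of_nonneg_left o2 (by linarith : (0 : ℝ) ≤ ρ)
      have h7 : orpL b ℓ J (rr (u :: l2)) ≤ ρ * (lam ^ J * psz (u :: l2) + b * M) := by
        have h8 : 0 ≤ lam ^ J * (psz (u :: l2) : ℝ) + b * M := by linarith
        have h9 := mul_le_mul_of_nonneg_right hρ h8
        linarith
      linarith)
    (by
      have h4 : ((W ∩ U).card : ℝ) ≤ 2 + tsz (rr (u :: l2)) := by
        have h5 := hWQ U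
        rw [hXU, card_empty] at h5
        have h8 : (W ∩ U).card ≤ 2 + tsz (rr (u :: l2)) := by omega
        exact_mod_cast h8
      have h5 : (tsz (rr (u :: l2)) : ℝ) ≤ ρ * psz (u :: l2) := by
        have h6' := mul_le_mul_of_nonneg_right hρ p2
        linarith
      have h9 : ((((t :: l1).map (fun t => tsz t.2)).sum : ℕ) : ℝ) ≤ psz (t :: l1) := by exact_mod_cast sum_tsz_le _
      have h10 := mul_le_mul_of_nonneg_left h9 (by linarith : (0 : ℝ) ≤ ρ)
      linarith)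
  -- together
  have hdis : Disjoint ((v :: wk.map Prod.snd).toFinset ∪ D) (insert w S1) := by
    rw [disjoint_union_left]
    constructor
    · rw [List.toFinset_cons, disjoint_insert_left]
      refine ⟨?_, hXd.mono_right (subset_insert _ _)⟩
      rw [mem_insert, not_or]
      exact ⟨hvw, hvS⟩
    · refine d2.mono_right ?_
      rw [hW]
      exact (subset_insert _ _).trans subset_union_left
  refine ⟨_, ?_, d3.append hz k2.2 hdis⟩
  refine union_subset (union_subset ?_ (d1.trans (union_subset (union_subset hUY hcY) hoY))) hS1Y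
  intro x hx
  rw [List.mem_toFinset] at hx
  rcases List.mem_cons.1 hx with rfl | hx
  · exact hv
  · obtain ⟨p, hp, rfl⟩ := List.mem_map.1 hx
    exact hwkY p hp

end AESK
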