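import Pool.Agent.AELT.Spine

/-!
# Turns of paths in oriented trees

A branch is a pair `(d, c)`: the direction of the arc from the parent (`true`: away from the parent) and the forest of
the branches at its root.
-/

namespace AESK

open Finset AE15 AED AELT
open scoped Classical

/-- number of vertices of a branch -/
def sz (p : Bool × Fd) : ℕ := p.2.size + 1

/-- `PtT k p q m`: there is a path from the root of `p` to the root of its branch `q`, all the branches on it (except
possibly `p`) have at least `k` vertices, and it has `m` turns (changes of the direction, the arc to the root of `p` is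
counted as the first arc) -/
inductive PtT (k : ℕ) (p : Bool × Fd) : Bool × Fd → ℕ → Prop
  | refl : PtT k p p 0
  | step (q r : Bool × Fd) (m : ℕ) : PtT k p q m → r ∈ q.2.trees → k ≤ sz r →
      PtT k p r (m + if r.1 = q.1 then 0 else 1)

/-- there is such a path with at least `τ` turns -/
def TurnGE (k τ : ℕ) (p : Bool × Fd) : Prop := ∃ q m, PtT k p q m ∧ τ ≤ m

/-- there is such a path with a turn at a vertex which is not the root -/
def TurnIn (k : ℕ) (p : Bool × Fd) : Prop := ∃ q ∈ p.2.trees, k ≤ sz q ∧ TurnGE k 1 q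

/-- `Run d p q`: the root of `q` is reached from the root of `p` by arcs of direction `d` -/
inductive Run (d : Bool) (p : Bool × Fd) : Bool × Fd → Prop
  | refl : Run d p p
  | step (q r : Bool × Fd) : Run d p q → r ∈ q.2.trees → r.1 = d → Run d p r

/-- every branch of direction `!σ` at a vertex reached by arcs of direction `σ` from the common vertex has less than `k`
vertices -/
def Fine (σ : Bool) (k : ℕ) : Fd → Prop
  | .nil => True
  | .node d c s => (if d = σ then Fine σ k c else c.size + 1 < k) ∧ Fine σ k s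

/-- every branch of direction `σ` at a vertex reached by arcs of direction `!σ` from the common vertex satisfies `P` -/
def AllB (σ : Bool) (P : Fd → Prop) : Fd → Prop
  | .nil => True
  | .node d c s => (if d = σ then P c else AllB σ P c) ∧ AllB σ P s

theorem sz_lt_of_mem {p q : Bool × Fd} (h : q ∈ p.2.trees) : sz q < sz p := by
  unfold sz
  rw [Fd.size_eq p.2]
  have h1 : q.2.size + 1 ∈ p.2.trees.map (fun p => p.2.size + 1) := List.mem_map.2 ⟨q, h, rfl⟩
  have h2 := List.single_le_sum (fun x _ => Nat.zero_le x) _ h1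
  omega

theorem PtT.mono {k k' : ℕ} (hk : k' ≤ k) {p q : Bool × Fd} {m : ℕ} (h : PtT k p q m) : PtT k' p q m := by
  induction h with
  | refl => exact PtT.refl
  | step q r m _ h2 h3 ih => exact PtT.step q r m ih h2 (hk.trans h3)

theorem TurnGE.mono {k k' τ τ' : ℕ} (hk : k' ≤ k) (hτ : τ' ≤ τ) {p : Bool × Fd} (h : TurnGE k τ p) : TurnGE k' τ' p := by
  obtain ⟨q, m, h1, h2⟩ := h
  exact ⟨q, m, h1.mono hk, hτ.trans h2⟩

theorem TurnIn.mono {k k' : ℕ} (hk : k' ≤ k) {p : Bool × Fd} (h : TurnIn k p) : TurnIn k' p := by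
  obtain ⟨q, h1, h2, h3⟩ := h
  exact ⟨q, h1, hk.trans h2, h3.mono hk le_rfl⟩

theorem PtT.trans {k : ℕ} {p q r : Bool × Fd} {m m' : ℕ} (h : PtT k p q m) (h' : PtT k q r m') :
    PtT k p r (m + m') := by
  induction h' with
  | refl => exact h
  | step q' r' m' _ h2 h3 ih =>
    rw [← Nat.add_assoc]
    exact PtT.step q' r' _ ih h2 h3

theorem PtT.sz_le {k : ℕ} {p q : Bool × Fd} {m : ℕ} (h : PtT k p q m) : sz q ≤ sz p := by
  induction h with
  | refl => exact le_rfl
  | step q r m _ h2 _ ih => exact (sz_lt_of_mem h2).le.trans ih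

/-- a run is a path; its branches contain its last branch -/
theorem Run.ptT {d : Bool} {p q : Bool × Fd} (h : Run d p q) (hd : p.1 = d) {k : ℕ} (hk : k ≤ sz q) : PtT k p q 0 ∧ q.1 = d := by
  induction h with
  | refl => exact ⟨PtT.refl, hd⟩
  | step q r _ h2 h3 ih =>
    obtain ⟨h4, h5⟩ := ih (hk.trans (sz_lt_of_mem h2).le)
    refine ⟨?_, h3⟩
    have := PtT.step q r 0 h4 h2 hk
    rw [h3, h5] at this
    simpa using this

/-- the last turn of a path -/
theorem PtT.last {k : ℕ} {p q : Bool × Fd} {m : ℕ} (h : PtT k p q (m + 1)) :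
    ∃ u r, PtT k p u m ∧ r ∈ u.2.trees ∧ r.1 ≠ u.1 ∧ k ≤ sz r := by
  obtain ⟨m', hm'⟩ : ∃ m', m' = m + 1 := ⟨_, rfl⟩
  rw [← hm'] at h
  induction h with
  | refl => omega
  | step q r m'' h1 h2 h3 ih =>
    by_cases h4 : r.1 = q.1
    · rw [if_pos h4] at hm'
      exact ih hm'
    · rw [if_neg h4] at hm'
      obtain rfl : m'' = m := by omega
      exact ⟨q, r, h1, h2, h4, h3⟩

/-- a path with a turn is not trivial -/
theorem PtT.ne {k : ℕ} {p q : Bool × Fd} {m : ℕ} (h : PtT k p q m) (hm : m ≠ 0) : sz q < sz p := by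
  cases h with
  | refl => exact absurd rfl hm
  | step q r m h1 h2 h3 => exact (sz_lt_of_mem h2).trans_le h1.sz_le

/-- **Ladder lemma** -/
theorem ladder (k : ℕ → ℕ) {p : Bool × Fd} {a τ : ℕ} (h : TurnGE (k a) τ p) (n : ℕ) :
    TurnGE (k (a + n)) (τ + n) p ∨
      ∃ j τ', a ≤ j ∧ j < a + n ∧ τ ≤ τ' ∧ TurnGE (k j) τ' p ∧ ¬ TurnGE (k (j + 1)) (τ' + 1) p := by
  induction n with
  | zero => exact Or.inl h
  | succ n ih =>
    rcases ih with ih | ⟨j, τ', h1, h2, h3⟩
    · by_cases h1 : TurnGE (k (a + n + 1)) (τ + n + 1) p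
      · exact Or.inl h1
      · exact Or.inr ⟨a + n, τ + n, by omega, by omega, by omega, ih, h1⟩
    · exact Or.inr ⟨j, τ', h1, by omega, h3⟩

/-! ### the stable case -/

/-- the two forms of fineness -/
theorem fine_of_run {σ : Bool} {k : ℕ} (c : Fd) : (∀ (d : Bool) (q : Bool × Fd), Run σ (d, c) q → ∀ w ∈ q.2.trees,
    w.1 ≠ σ → sz w < k) → Fine σ k c := by
  induction c with
  | nil => intro _; trivial
  | node d c s ihc ihs =>
    intro h
    constructor
    · by_cases hd : d = σ
      · rw [if_pos hd]
        apply ihc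
        intro d' q hq w hw hwσ
        -- the run may be started at the parent
        have key : ∀ q, Run σ (d', c) q → q = (d', c) ∨ Run σ (d, Fd.node d c s) q := by
          intro q hq
          induction hq with
          | refl => exact Or.inl rfl
          | step q r _ h2 h3 ih =>
            right
            rcases ih with ih | ih
            · subst ih
              have h4 : Run σ (d, Fd.node d c s) (d, c) := Run.step _ _ Run.refl (by simp [Fd.trees]) hd
              exact Run.step _ _ h4 h2 h3
            · exact Run.step _ _ ih h2 h3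
        rcases key q hq with h1 | h1
        · subst h1
          exact h d (d, c) (Run.step _ _ Run.refl (by simp [Fd.trees]) hd) w hw hwσ
        · exact h d q h1 w hw hwσ
      · rw [if_neg hd]
        exact h d (d, Fd.node d c s) Run.refl (d, c) (by simp [Fd.trees]) hd
    · apply ihs
      intro d' q hq w hw hwσ
      have key : ∀ q, Run σ (d', s) q → q = (d', s) ∨ Run σ (d, Fd.node d c s) q := by
        intro q hq
        induction hq with
        | refl => exact Or.inl rfl
        | step q r _ h2 h3 ih =>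
          right
          rcases ih with ih | ih
          · subst ih
            exact Run.step _ _ Run.refl (by simp only [Fd.trees, List.mem_cons]; exact Or.inr h2) h3
          · exact Run.step _ _ ih h2 h3
      rcases key q hq with h1 | h1
      · subst h1
        exact h d (d, Fd.node d c s) Run.refl w (by simp only [Fd.trees, List.mem_cons]; exact Or.inr hw) hwσ
      · exact h d q h1 w hw hwσ

theorem allB_of_run {σ : Bool} {P : Fd → Prop} (c : Fd) : (∀ (d : Bool) (q : Bool × Fd), Run (!σ) (d, c) q →
    ∀ w ∈ q.2.trees, w.1 = σ → P w.2) → AllB σ P c := by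
  induction c with
  | nil => intro _; trivial
  | node d c s ihc ihs =>
    intro h
    constructor
    · by_cases hd : d = σ
      · rw [if_pos hd]
        exact h d (d, Fd.node d c s) Run.refl (d, c) (by simp [Fd.trees]) hd
      · rw [if_neg hd]
        have hd' : d = !σ := Bool.eq_not_iff.2 hd
        apply ihc
        intro d' q hq w hw hwσ
        have key : ∀ q, Run (!σ) (d', c) q → q = (d', c) ∨ Run (!σ) (d, Fd.node d c s) q := by
          intro q hq
          induction hq with
          | refl => exact Or.inl rfl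
          | step q r _ h2 h3 ih =>
            right
            rcases ih with ih | ih
            · subst ih
              have h4 : Run (!σ) (d, Fd.node d c s) (d, c) := Run.step _ _ Run.refl (by simp [Fd.trees]) hd'
              exact Run.step _ _ h4 h2 h3
            · exact Run.step _ _ ih h2 h3
        rcases key q hq with h1 | h1
        · subst h1
          exact h d (d, c) (Run.step _ _ Run.refl (by simp [Fd.trees]) hd') w hw hwσ
        · exact h d q h1 w hw hwσ
    · apply ihs
      intro d' q hq w hw hwσ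
      have key : ∀ q, Run (!σ) (d', s) q → q = (d', s) ∨ Run (!σ) (d, Fd.node d c s) q := by
        intro q hq
        induction hq with
        | refl => exact Or.inl rfl
        | step q r _ h2 h3 ih =>
          right
          rcases ih with ih | ih
          · subst ih
            exact Run.step _ _ Run.refl (by simp only [Fd.trees, List.mem_cons]; exact Or.inr h2) h3
          · exact Run.step _ _ ih h2 h3
      rcases key q hq with h1 | h1
      · subst h1
        exact h d (d, Fd.node d c s) Run.refl w (by simp only [Fd.trees, List.mem_cons]; exact Or.inr hw) hwσ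
      · exact h d q h1 w hw hwσ

/-- **The stable case.** `s` is a branch (not the whole tree) of direction `!σ`, `z` is a branch of direction `σ` at its
root, with at least `k` vertices; every branch of direction `σ` at a vertex reached from the root of `s` by arcs of
direction `!σ` is not larger than `z`, and is `k'`-fine. -/
theorem stable {k k' τ : ℕ} (hk : k' ≤ k) {p : Bool × Fd} (hτ : 1 ≤ τ) (h : TurnGE k τ p)
    (h' : ¬ TurnGE k' (τ + 1) p) (hin : TurnIn k p) : ∃ (σ : Bool) (s z : Bool × Fd), PtT k p s (τ - 1) ∧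
      sz s < sz p ∧ s.1 = !σ ∧ z ∈ s.2.trees ∧ z.1 = σ ∧ k ≤ sz z ∧
      AllB σ (fun x => x.size ≤ z.2.size ∧ Fine σ k' x) s.2 := by
  -- the candidates
  obtain ⟨Cand, hCand⟩ : ∃ Cand : Bool → (Bool × Fd) → (Bool × Fd) → Prop, Cand = fun σ a h => PtT k p a (τ - 1) ∧
    sz a < sz p ∧ a.1 = !σ ∧ h ∈ a.2.trees ∧ h.1 = σ ∧ k ≤ sz h := ⟨_, rfl⟩
  have hno : ∀ q m, PtT k p q m → m ≤ τ := by
    intro q m hq
    by_contra hc
    exact h' ⟨q, m, hq.mono hk, by omega⟩
  have hex : ∃ σ a h, Cand σ a h := by
    have key : ∀ u r, PtT k p u (τ - 1) → r ∈ u.2.trees → r.1 ≠ u.1 → k ≤ sz r → sz u < sz p → ∃ σ a h, Cand σ a h := by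
      intro u r h1 h2 h3 h4 h5
      refine ⟨r.1, u, r, ?_⟩
      rw [hCand]
      refine ⟨h1, h5, ?_, h2, rfl, h4⟩
      exact Bool.eq_not_iff.2 (fun h => h3 h.symm)
    rcases Nat.eq_or_lt_of_le hτ with h1 | h1
    · -- one turn
      obtain ⟨q₀, h2, h3, q, m, h4, h5⟩ := hin
      have h6 : PtT k p q₀ (0 + if q₀.1 = p.1 then 0 else 1) := PtT.step p q₀ 0 PtT.refl h2 h3
      have h7 := hno q _ (h6.trans h4)
      have h8 : (if q₀.1 = p.1 then 0 else 1) = 0 ∧ m = 1 := by
        split_ifs at h7 ⊢ <;> omega
      obtain ⟨m', rfl⟩ : ∃ m', m = m' + 1 := ⟨m - 1, by omega⟩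
      obtain ⟨u, r, e1, e2, e3, e4⟩ := h4.last
      have h9 := h6.trans e1
      rw [h8.1] at h9
      refine key u r ?_ e2 e3 e4 (e1.sz_le.trans_lt (sz_lt_of_mem h2))
      have : 0 + 0 + m' = τ - 1 := by omega
      rw [← this]
      exact h9
    · obtain ⟨q, m, h2, h3⟩ := h
      obtain rfl : m = τ := le_antisymm (hno q m h2) h3
      obtain ⟨m', rfl⟩ : ∃ m', m = m' + 1 := ⟨m - 1, by omega⟩
      obtain ⟨u, r, e1, e2, e3, e4⟩ := h2.last
      exact key u r e1 e2 e3 e4 (e1.ne (by omega))
  obtain ⟨σ, a₀, h₀, hc₀⟩ := hex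
  -- the largest one
  have hmax : ∃ s z, Cand σ s z ∧ ∀ a h, Cand σ a h → sz h ≤ sz z := by
    obtain ⟨S, hS⟩ : ∃ S : ℕ → Prop, S = fun x => ∃ a h, Cand σ a h ∧ sz h = x := ⟨_, rfl⟩
    have hb : ∀ x, S x → x ≤ sz p := by
      intro x hx
      rw [hS] at hx
      obtain ⟨a, h, h1, rfl⟩ := hx
      rw [hCand] at h1
      exact (sz_lt_of_mem h1.2.2.2.1).le.trans h1.2.1.le
    have h1 : S (Nat.findGreatest S (sz p)) := by
      refine Nat.findGreatest_spec (P := S) (m := sz h₀) (hb _ ?_) ?_
      · rw [hS]; exact ⟨a₀, h₀, hc₀, rfl⟩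
      · rw [hS]; exact ⟨a₀, h₀, hc₀, rfl⟩
    have h2 : ∃ a h, Cand σ a h ∧ sz h = Nat.findGreatest S (sz p) := by
      have h2' : ∀ x, S x → ∃ a h, Cand σ a h ∧ sz h = x := by
        intro x hx
        rw [hS] at hx
        exact hx
      exact h2' _ h1
    obtain ⟨s, z, h3, h4⟩ := h2
    refine ⟨s, z, h3, ?_⟩
    intro a h h5
    rw [h4]
    have h6 : S (sz h) := by rw [hS]; exact ⟨a, h, h5, rfl⟩
    exact Nat.le_findGreatest (hb _ h6) h6
  obtain ⟨s, z, hsz, hm⟩ := hmax
  have hsz' := hsz
  rw [hCand] at hsz'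
  obtain ⟨c1, c2, c3, c4, c5, c6⟩ := hsz'
  refine ⟨σ, s, z, c1, c2, c3, c4, c5, c6, ?_⟩
  -- runs starting at `s`
  have hrun : ∀ (d : Bool) (q : Bool × Fd), Run (!σ) (d, s.2) q → q = (d, s.2) ∨ Run (!σ) s q := by
    intro d q hq
    induction hq with
    | refl => exact Or.inl rfl
    | step q r _ h2 h3 ih =>
      right
      rcases ih with ih | ih
      · subst ih
        exact Run.step _ _ Run.refl h2 h3
      · exact Run.step _ _ ih h2 h3
  have main : ∀ a, Run (!σ) s a → ∀ w ∈ a.2.trees, w.1 = σ → w.2.size ≤ z.2.size ∧ Fine σ k' w.2 := by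
    intro a ha w hw hwσ
    have hal : sz a < sz p := by
      have := (ha.ptT c3 (k := 0) (Nat.zero_le _)).1.sz_le
      exact this.trans_lt c2
    constructor
    · by_contra hc
      have h1 : sz z < sz w := by unfold sz; omega
      have h2 : k ≤ sz a := c6.trans (h1.le.trans (sz_lt_of_mem hw).le)
      obtain ⟨h3, h4⟩ := ha.ptT c3 h2
      have h5 : Cand σ a w := by
        rw [hCand]
        refine ⟨?_, hal, h4, hw, hwσ, c6.trans h1.le⟩
        have := c1.trans h3
        simpa using this
      have := hm a w h5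
      omega
    · apply fine_of_run
      intro d q hq v hv hvσ
      by_contra hc
      push Not at hc
      have hv' : v.1 = !σ := Bool.eq_not_iff.2 hvσ
      -- the run from `w`
      have hq' : Run σ w q ∨ q = (d, w.2) := by
        clear hv hc
        induction hq with
        | refl => exact Or.inr rfl
        | step q r _ h2 h3 ih =>
          left
          rcases ih with ih | ih
          · exact Run.step _ _ ih h2 h3
          · subst ih
            exact Run.step _ _ Run.refl h2 h3
      have hq'' : ∃ q', Run σ w q' ∧ v ∈ q'.2.trees := by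
        rcases hq' with h1 | h1
        · exact ⟨q, h1, hv⟩
        · subst h1
          exact ⟨w, Run.refl, hv⟩
      obtain ⟨q', hq1, hq2⟩ := hq''
      have s1 : k' ≤ sz q' := hc.trans (sz_lt_of_mem hq2).le
      obtain ⟨t1, t2⟩ := hq1.ptT hwσ s1
      have s2 : k' ≤ sz w := s1.trans t1.sz_le
      have s3 : k' ≤ sz a := s2.trans (sz_lt_of_mem hw).le
      obtain ⟨t3, t4⟩ := ha.ptT c3 s3
      have u1 := (c1.mono hk).trans t3
      have u2 := PtT.step a w _ u1 hw s2
      have u3 := u2.trans t1
      have u4 := PtT.step q' v _ u3 hq2 hc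
      refine h' ⟨v, _, u4, ?_⟩
      have n1 : ¬ w.1 = a.1 := by rw [hwσ, t4]; exact (Bool.not_ne_self _).symm
      have n2 : ¬ v.1 = q'.1 := by rw [hv', t2]; exact Bool.not_ne_self _
      rw [if_neg n1, if_neg n2]
      omega
  apply allB_of_run
  intro d q hq w hw hwσ
  rcases hrun d q hq with h1 | h1
  · subst h1
    exact main s Run.refl w hw hwσ
  · exact main q h1 w hw hwσ

end AESK
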