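import Pool.Agent.AEK.Defs
import Pool.Agent.LTT.Label

/-!
# Linear extensions with the root at a prescribed place

A linear extension of the tree is given by a forest `F : AEK.Fn` whose labels are the places.
-/

namespace AESK

open Finset AE15 AED LTT AEK
open scoped Classical

/-- apply `f` to the labels -/
def Fn.map (f : ℕ → ℕ) : Fn → Fn
  | .nil => .nil
  | .node d e c s => .node d (f e) (Fn.map f c) (Fn.map f s)

theorem Fn.map_un (f : ℕ → ℕ) (F : Fn) : (Fn.map f F).un = F.un := by
  induction F with
  | nil => rfl
  | node d e c s ihc ihs => simp only [Fn.map, Fn.un, ihc, ihs]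

theorem Fn.map_ok {f : ℕ → ℕ} (hf : Monotone f) (F : Fn) (p : ℕ) (h : F.Ok p) : (Fn.map f F).Ok (f p) := by
  induction F generalizing p with
  | nil => trivial
  | node d e c s ihc ihs =>
    obtain ⟨h1, h2, h3⟩ := h
    refine ⟨?_, ihc e h2, ihs p h3⟩
    cases d
    · simp only [Bool.false_eq_true, if_false] at h1 ⊢
      exact hf h1
    · simp only [if_true] at h1 ⊢
      exact hf h1

theorem Fn.num_map (f : ℕ → ℕ) (F : Fn) (S : Finset ℕ) (h : ∀ j, F.num j = if j ∈ S then 1 else 0) (j : ℕ) :
    (Fn.map f F).num j = (S.filter (fun i => f i = j)).card := by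
  induction F generalizing S with
  | nil =>
    have : S = ∅ := by
      ext i
      have := h i
      simp only [Fn.num] at this
      by_cases hi : i ∈ S
      · rw [if_pos hi] at this
        omega
      · simp [hi]
    subst this
    rfl
  | node d e c s ihc ihs =>
    have he : e ∈ S := by
      by_contra hne
      have := h e
      rw [if_neg hne] at this
      simp only [Fn.num, if_true] at this
      omega
    have hle : ∀ i, c.num i ≤ 1 ∧ s.num i ≤ 1 ∧ (c.num i = 1 → i ∈ S ∧ i ≠ e ∧ s.num i = 0) ∧
        (s.num i = 1 → i ∈ S ∧ i ≠ e ∧ c.num i = 0) := by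
      intro i
      have hi := h i
      simp only [Fn.num] at hi
      by_cases h1 : i ∈ S
      · rw [if_pos h1] at hi
        by_cases h2 : e = i
        · rw [if_pos h2] at hi
          refine ⟨by omega, by omega, fun h3 => by omega, fun h3 => by omega⟩
        · rw [if_neg h2] at hi
          refine ⟨by omega, by omega, fun h3 => ⟨h1, fun h => h2 h.symm, by omega⟩, fun h3 => ⟨h1, fun h => h2 h.symm, by omega⟩⟩
      · rw [if_neg h1] at hi
        refine ⟨by omega, by omega, fun h3 => by omega, fun h3 => by omega⟩
    have hc := ihc (S.filter (fun i => c.num i = 1)) (by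
      intro i
      have := hle i
      by_cases h1 : c.num i = 1
      · rw [h1, if_pos]
        exact mem_filter.2 ⟨(this.2.2.1 h1).1, h1⟩
      · rw [if_neg]
        · omega
        · exact fun h => h1 (mem_filter.1 h).2)
    have hs := ihs (S.filter (fun i => s.num i = 1)) (by
      intro i
      have := hle i
      by_cases h1 : s.num i = 1
      · rw [h1, if_pos]
        exact mem_filter.2 ⟨(this.2.2.2 h1).1, h1⟩
      · rw [if_neg]
        · omega
        · exact fun h => h1 (mem_filter.1 h).2)
    simp only [Fn.map, Fn.num]
    rw [hc, hs]
    have hS : S = insert e (S.filter (fun i => c.num i = 1) ∪ S.filter (fun i => s.num i = 1)) := by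
      ext i
      simp only [mem_insert, mem_union, mem_filter]
      constructor
      · intro h1
        have hi := h i
        simp only [Fn.num] at hi
        rw [if_pos h1] at hi
        by_cases h2 : e = i
        · exact Or.inl h2.symm
        · rw [if_neg h2] at hi
          have := hle i
          by_cases h3 : c.num i = 1
          · exact Or.inr (Or.inl ⟨h1, h3⟩)
          · exact Or.inr (Or.inr ⟨h1, by omega⟩)
      · rintro (h1 | h1 | h1)
        · rwa [h1]
        · exact h1.1
        · exact h1.1
    have hd1 : Disjoint (S.filter (fun i => c.num i = 1)) (S.filter (fun i => s.num i = 1)) := by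
      rw [disjoint_left]
      intro i h1 h2
      rw [mem_filter] at h1 h2
      have := ((hle i).2.2.1 h1.2).2.2
      omega
    have hd2 : e ∉ (S.filter (fun i => c.num i = 1) ∪ S.filter (fun i => s.num i = 1)) := by
      rw [mem_union, mem_filter, mem_filter]
      rintro (h1 | h1)
      · exact ((hle e).2.2.1 h1.2).2.1 rfl
      · exact ((hle e).2.2.2 h1.2).2.1 rfl
    conv_rhs => rw [hS]
    rw [filter_insert, filter_union]
    split_ifs with h1
    · rw [card_insert_of_notMem (fun h => hd2 (by
        rw [mem_union] at h ⊢
        rcases h with h | h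
        · exact Or.inl (mem_filter.1 h).1
        · exact Or.inr (mem_filter.1 h).1)), card_union_of_disjoint (hd1.mono (filter_subset _ _) (filter_subset _ _))]
      omega
    · rw [card_union_of_disjoint (hd1.mono (filter_subset _ _) (filter_subset _ _))]
      omega

/-- an element of `S` with exactly `k` elements of `S` above it -/
theorem exists_rank (S : Finset ℕ) (k : ℕ) (hk : k < S.card) : ∃ e ∈ S, (S.filter (fun i => e < i)).card = k := by
  induction k with
  | zero =>
    have hne : S.Nonempty := card_pos.1 (by omega)
    refine ⟨S.max' hne, S.max'_mem hne, ?_⟩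
    rw [card_eq_zero, filter_eq_empty_iff]
    intro i hi h
    exact absurd (S.le_max' i hi) (by omega)
  | succ k ih =>
    obtain ⟨e, he, hek⟩ := ih (by omega)
    have h1 : (S.filter (fun i => i < e)).Nonempty := by
      rw [← card_pos]
      have h2 : S = insert e (S.filter (fun i => i < e) ∪ S.filter (fun i => e < i)) := by
        ext i
        simp only [mem_insert, mem_union, mem_filter]
        constructor
        · intro hi
          rcases lt_trichotomy i e with h | h | h
          · exact Or.inr (Or.inl ⟨hi, h⟩)
          · exact Or.inl h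
          · exact Or.inr (Or.inr ⟨hi, h⟩)
        · rintro (h | h | h)
          · rwa [h]
          · exact h.1
          · exact h.1
      have h3 : S.card ≤ 1 + ((S.filter (fun i => i < e)).card + (S.filter (fun i => e < i)).card) := by
        conv_lhs => rw [h2]
        refine (card_insert_le _ _).trans ?_
        have := card_union_le (S.filter (fun i => i < e)) (S.filter (fun i => e < i))
        omega
      omega
    refine ⟨(S.filter (fun i => i < e)).max' h1, (mem_filter.1 (max'_mem _ h1)).1, ?_⟩
    have hm := mem_filter.1 (max'_mem _ h1)
    have h2 : S.filter (fun i => (S.filter (fun i => i < e)).max' h1 < i) = insert e (S.filter (fun i => e < i)) := by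
      ext i
      simp only [mem_insert, mem_filter]
      constructor
      · rintro ⟨hi, h⟩
        rcases lt_trichotomy i e with h3 | h3 | h3
        · have := le_max' (S.filter (fun i => i < e)) i (mem_filter.2 ⟨hi, h3⟩)
          omega
        · exact Or.inl h3
        · exact Or.inr ⟨hi, h3⟩
      · rintro (h | h)
        · rw [h]; exact ⟨he, hm.2⟩
        · exact ⟨h.1, hm.2.trans h.2⟩
    rw [h2, card_insert_of_notMem (by simp), hek]

theorem exists_rank' (S : Finset ℕ) (k : ℕ) (hk : k < S.card) : ∃ e ∈ S, (S.filter (fun i => i < e)).card = k := by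
  obtain ⟨e, he, h⟩ := exists_rank S (S.card - 1 - k) (by omega)
  refine ⟨e, he, ?_⟩
  have h2 : S = insert e (S.filter (fun i => i < e) ∪ S.filter (fun i => e < i)) := by
    ext i
    simp only [mem_insert, mem_union, mem_filter]
    constructor
    · intro hi
      rcases lt_trichotomy i e with h | h | h
      · exact Or.inr (Or.inl ⟨hi, h⟩)
      · exact Or.inl h
      · exact Or.inr (Or.inr ⟨hi, h⟩)
    · rintro (h | h | h)
      · rwa [h]
      · exact h.1
      · exact h.1
  have h3 : S.card = 1 + ((S.filter (fun i => i < e)).card + (S.filter (fun i => e < i)).card) := by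
    conv_lhs => rw [h2]
    rw [card_insert_of_notMem, card_union_of_disjoint]
    · omega
    · rw [disjoint_left]
      intro i h1 h2
      rw [mem_filter] at h1 h2
      omega
    · rw [mem_union, mem_filter, mem_filter]
      rintro (h | h) <;> omega
  omega

theorem card_lt_gt (S : Finset ℕ) (x : ℕ) (hx : x ∉ S) :
    (S.filter (fun i => i < x)).card + (S.filter (fun i => x < i)).card = S.card := by
  rw [← card_union_of_disjoint]
  · congr 1
    ext i
    simp only [mem_union, mem_filter]
    constructor
    · rintro (h | h) <;> exact h.1
    · intro hi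
      rcases lt_trichotomy i x with h | h | h
      · exact Or.inl ⟨hi, h⟩
      · subst h
        exact absurd hi hx
      · exact Or.inr ⟨hi, h⟩
  · rw [disjoint_left]
    intro i h1 h2
    rw [mem_filter] at h1 h2
    omega

/-- **Place lemma**: the tree has a linear extension with its root at the place `x`, for every `x` which leaves enough
room on both sides -/
theorem place (c : Fd) : ∀ (S : Finset ℕ) (x : ℕ), x ∉ S → S.card = c.size →
    rch false c ≤ (S.filter (fun i => i < x)).card → rch true c ≤ (S.filter (fun i => x < i)).card →
    ∃ F : Fn, F.un = c ∧ F.Ok x ∧ ∀ j, F.num j = if j ∈ S then 1 else 0 := by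
  induction c with
  | nil =>
    intro S x _ hS _ _
    have : S = ∅ := card_eq_zero.1 hS
    subst this
    exact ⟨.nil, rfl, trivial, fun j => by simp [Fn.num]⟩
  | node d c s ihc ihs =>
    intro S x hx hS hB hA
    have h0 := card_lt_gt S x hx
    have hrc := rch_add_le c true
    have hrs := rch_add_le s true
    simp only [Bool.not_true] at hrc hrs
    obtain ⟨SB, hSB⟩ : ∃ SB, SB = S.filter (fun i => i < x) := ⟨_, rfl⟩
    obtain ⟨SA, hSA⟩ : ∃ SA, SA = S.filter (fun i => x < i) := ⟨_, rfl⟩
    rw [← hSB] at hB h0
    rw [← hSA] at hA h0
    -- the common part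
    have key : ∀ b₁ a₁ : ℕ, b₁ ≤ SB.card - rch false s → rch false s ≤ SB.card → a₁ ≤ SA.card - rch true s →
        rch true s ≤ SA.card → b₁ + a₁ = c.size + 1 → (if d then rch true c + 1 ≤ a₁ else rch false c + 1 ≤ b₁) →
        ∃ F : Fn, F.un = Fd.node d c s ∧ F.Ok x ∧ ∀ j, F.num j = if j ∈ S then 1 else 0 := by
      intro b₁ a₁ hb₁ hb₂ ha₁ ha₂ hab hd
      obtain ⟨B₁, hB1, hB2⟩ := exists_subset_card_eq (show b₁ ≤ SB.card by omega)
      obtain ⟨A₁, hA1, hA2⟩ := exists_subset_card_eq (show a₁ ≤ SA.card by omega)
      have hBx : ∀ i ∈ B₁, i ∈ S ∧ i < x := fun i hi => by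
        have := hB1 hi
        rw [hSB, mem_filter] at this
        exact this
      have hAx : ∀ i ∈ A₁, i ∈ S ∧ x < i := fun i hi => by
        have := hA1 hi
        rw [hSA, mem_filter] at this
        exact this
      have hdis : Disjoint B₁ A₁ := by
        rw [disjoint_left]
        intro i h1 h2
        have := hBx i h1
        have := hAx i h2
        omega
      have hcard : (B₁ ∪ A₁).card = c.size + 1 := by rw [card_union_of_disjoint hdis]; omega
      have hsub : B₁ ∪ A₁ ⊆ S := by
        intro i hi
        rcases mem_union.1 hi with h | h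
        · exact (hBx i h).1
        · exact (hAx i h).1
      -- the label of the child
      obtain ⟨e, he, hed, he1, he2⟩ : ∃ e ∈ B₁ ∪ A₁, (if d then x ≤ e else e ≤ x) ∧
          rch false c ≤ (((B₁ ∪ A₁).erase e).filter (fun i => i < e)).card ∧
          rch true c ≤ (((B₁ ∪ A₁).erase e).filter (fun i => e < i)).card := by
        cases d
        · simp only [Bool.false_eq_true, if_false] at hd ⊢
          obtain ⟨e, he, hek⟩ := exists_rank' (B₁ ∪ A₁) (rch false c) (by omega)
          have heB : e ∈ B₁ := by
            rcases mem_union.1 he with h | h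
            · exact h
            · exfalso
              have h1 : B₁ ⊆ (B₁ ∪ A₁).filter (fun i => i < e) := by
                intro i hi
                have := hBx i hi
                have := hAx e h
                exact mem_filter.2 ⟨mem_union_left _ hi, by omega⟩
              have := card_le_card h1
              omega
          have h2 := card_lt_gt ((B₁ ∪ A₁).erase e) e (by simp)
          have h3 : ((B₁ ∪ A₁).erase e).filter (fun i => i < e) = (B₁ ∪ A₁).filter (fun i => i < e) := by
            ext i
            simp only [mem_filter, mem_erase]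
            constructor
            · rintro ⟨⟨-, h⟩, h'⟩; exact ⟨h, h'⟩
            · rintro ⟨h, h'⟩; exact ⟨⟨by omega, h⟩, h'⟩
          rw [h3, card_erase_of_mem he] at h2
          refine ⟨e, he, (hBx e heB).2.le, ?_, ?_⟩
          · rw [h3]
            omega
          · omega
        · simp only [if_true] at hd ⊢
          obtain ⟨e, he, hek⟩ := exists_rank (B₁ ∪ A₁) (rch true c) (by omega)
          have heA : e ∈ A₁ := by
            rcases mem_union.1 he with h | h
            · exfalso
              have h1 : A₁ ⊆ (B₁ ∪ A₁).filter (fun i => e < i) := by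
                intro i hi
                have := hAx i hi
                have := hBx e h
                exact mem_filter.2 ⟨mem_union_right _ hi, by omega⟩
              have := card_le_card h1
              omega
            · exact h
          have h2 := card_lt_gt ((B₁ ∪ A₁).erase e) e (by simp)
          have h3 : ((B₁ ∪ A₁).erase e).filter (fun i => e < i) = (B₁ ∪ A₁).filter (fun i => e < i) := by
            ext i
            simp only [mem_filter, mem_erase]
            constructor
            · rintro ⟨⟨-, h⟩, h'⟩; exact ⟨h, h'⟩
            · rintro ⟨h, h'⟩; exact ⟨⟨by omega, h⟩, h'⟩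
          rw [h3, card_erase_of_mem he] at h2
          refine ⟨e, he, (hAx e heA).2.le, ?_, ?_⟩
          · omega
          · rw [h3]
            omega
      obtain ⟨F₁, f1, f2, f3⟩ := ihc ((B₁ ∪ A₁).erase e) e (by simp) (by rw [card_erase_of_mem he]; omega) he1 he2
      obtain ⟨F₂, g1, g2, g3⟩ := ihs (S \ (B₁ ∪ A₁)) x (fun h => hx (mem_sdiff.1 h).1) (by
        rw [card_sdiff_of_subset hsub, hS, hcard]
        simp only [Fd.size]
        omega) (by
        have h1 : (S \ (B₁ ∪ A₁)).filter (fun i => i < x) = SB \ B₁ := by
          ext i
          rw [hSB]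
          simp only [mem_filter, mem_sdiff, mem_union, not_or]
          constructor
          · rintro ⟨⟨h1, h2, -⟩, h4⟩; exact ⟨⟨h1, h4⟩, h2⟩
          · rintro ⟨⟨h1, h4⟩, h2⟩
            exact ⟨⟨h1, h2, fun h => by have := hAx i h; omega⟩, h4⟩
        rw [h1, card_sdiff_of_subset hB1]
        omega) (by
        have h1 : (S \ (B₁ ∪ A₁)).filter (fun i => x < i) = SA \ A₁ := by
          ext i
          rw [hSA]
          simp only [mem_filter, mem_sdiff, mem_union, not_or]
          constructor
          · rintro ⟨⟨h1, -, h2⟩, h4⟩; exact ⟨⟨h1, h4⟩, h2⟩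
          · rintro ⟨⟨h1, h4⟩, h2⟩
            exact ⟨⟨h1, fun h => by have := hBx i h; omega, h2⟩, h4⟩
        rw [h1, card_sdiff_of_subset hA1]
        omega)
      refine ⟨.node d e F₁ F₂, by simp only [Fn.un, f1, g1], ⟨hed, f2, g2⟩, ?_⟩
      intro j
      simp only [Fn.num, f3, g3, mem_erase, mem_sdiff]
      by_cases hje : e = j
      · subst hje
        have h1 : e ∈ S := hsub he
        simp [h1, he]
      · by_cases hj1 : j ∈ B₁ ∪ A₁
        · have h1 : j ∈ S := hsub hj1
          have hje' : j ≠ e := fun h => hje h.symm
          simp [h1, hj1, hje, hje']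
        · simp [hj1, hje]
    simp only [Fd.size] at hS
    cases d
    · simp only [rch, Bool.false_eq_true, if_false, if_true, zero_add] at hB hA
      refine key (max (rch false c + 1) (c.size + 1 - (SA.card - rch true s)))
        (c.size + 1 - max (rch false c + 1) (c.size + 1 - (SA.card - rch true s))) ?_ ?_ ?_ ?_ ?_ ?_
      · omega
      · omega
      · omega
      · simpa using hA
      · omega
      · simp only [Bool.false_eq_true, if_false]
        exact le_max_left _ _
    · simp only [rch, Bool.true_eq_false, if_false, if_true, zero_add] at hB hA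
      refine key (c.size + 1 - max (rch true c + 1) (c.size + 1 - (SB.card - rch false s)))
        (max (rch true c + 1) (c.size + 1 - (SB.card - rch false s))) ?_ ?_ ?_ ?_ ?_ ?_
      · omega
      · simpa using hB
      · omega
      · omega
      · omega
      · simp only [if_true]
        exact le_max_left _ _

end AESK
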